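import Pool.Agent.Q72.SH.RigU

/-!
MP_e06174_ag, Q1, for projective varieties: those with a dense set of flexible entire curves are
uniruled.
-/

set_option autoImplicit false

namespace Pool.Agent.Results.MP_e06174_ag.FlexibleEntireCurves

open MvPolynomial
open Pool.Agent.W602.GT Pool.Agent.TH143 Pool.Agent.TH143.GT Pool.Agent.Q72.SH
open Pool.Agent.W603.BPR (EntireCurve)

/-- For all `n` and `d` there is a number `M` such that the following is true for all projective
varieties `X` in `P^n` whose ideal is generated by a set `E` of forms of degrees at most `d`. Here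
`K` is the function field, `w` the dimension and `y` the generic point of `X`. Suppose that (a) there
are `M + 1` different Zariski-dense entire curves in `X` that have the same intersections, with
multiplicities, with the `n + 1` coordinate hyperplanes, or that (b) the union of all flexible entire
curves in `X` is Zariski-dense in `X`, or that (c) there is a Zariski-dense entire curve `f` in `X`
that is of exponential type and whose intersections with the coordinate hyperplanes are invariant
under a translation other than the identity, or (d) `w ≥ 2` and there is a Zariski-dense entire curve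
in `X` whose intersections with the coordinate hyperplanes are invariant under the translations of a
lattice. Then `X` is uniruled and all pluricanonical forms on its smooth projective models are
zero. -/
theorem result (n d : ℕ) : ∃ M : ℕ, ∀ E : Set (MvPolynomial (Fin (n + 1)) ℂ),
    (∀ F ∈ E, ∃ e ≤ d, F.IsHomogeneous e) →
    ∀ (K : Type) [Field K] [Algebra ℂ K] (w : ℕ) (y : Fin (n + 1) → K),
      FunField (Ideal.span E) 1 K w y →
      ((∃ g : Fin (M + 1) → ℂ → Fin (n + 1) → ℂ, (∀ s, EntireCurve (Ideal.span E) 1 (g s)) ∧
          (∀ s, ZDense (Ideal.span E) (g s) Set.univ) ∧ (∀ s t, SameSections (g s) (g t)) ∧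
          ∀ s t, s ≠ t → ¬ SameCurve (g s) (g t)) ∨
        (∀ G : MvPolynomial (Fin (n + 1)) ℂ, IsForm G →
          (∀ f, Flexible E f → ∀ z, eval (f z) G = 0) → G ∈ Ideal.span E) ∨
        ∃ f, EntireCurve (Ideal.span E) 1 f ∧ ZDense (Ideal.span E) f Set.univ ∧
          ((ExpType f ∧ ∃ b, b ≠ 0 ∧ SameSections (fun z => f (z + b)) f) ∨
            (2 ≤ w ∧ Lattice f))) →
      Covered K ∧ ∀ N, 0 < N → ∀ ω : (Fin w → Derivation ℂ K K) → K,
        Pluricanonical w N ω → ω = 0 := by
  obtain ⟨M, hM⟩ := flex_main n d
  refine ⟨M, fun E hE K _ _ w y hy hX => ?_⟩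
  obtain ⟨r, hr⟩ := hM E hE K w y hy hX
  exact ⟨Pool.Agent.TH143.DE.covered' hy hr, fun N hN ω hω =>
    Pool.Agent.TH143.DE.sec_zero' hy hr hN hω⟩

end Pool.Agent.Results.MP_e06174_ag.FlexibleEntireCurves
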