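import Pool.Agent.Q41.RC.Final

/-!
# Uniruledness of abelian covers of products of projective spaces

Let `X` be a smooth projective model of an abelian cover of the product of the projective spaces of
the dimensions `n l`, which is branched along any number of hypersurfaces `F c = 0` of any
multidegrees `d c`: the function field `K` of `X` is generated by the affine coordinates `x` and by
roots `z j`, `z j ^ m j = ∏ c, F c (x) ^ a j c`. (By Kummer theory all abelian covers are of this
form.) The definitions are in `Pool.Agent.Q41.RC.Defs`.

**Theorem.** (1) For arbitrary hypersurfaces (with arbitrary singularities): if there are numerical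
data `D`, `v` of a family of rational curves with fewer conditions than parameters, then `X` is
uniruled.

(2) If the hypersurfaces have normal crossings then the following are equivalent: the plurigenus
`P_M` of `X` vanishes for one explicit index `M`, which depends only on the number and the degrees
of the hypersurfaces and on the exponent of the Galois group; `κ(X) = -∞`; `X` is uniruled; `K_X` is
not pseudo-effective; a system of linear inequalities has no solution; there are data as in (1).

The singularities of the cover are in general not canonical, so that `K_X` is not determined by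
the degrees of the hypersurfaces.

Proof: (1) By a dimension count there are curves `q` through every point `x` with
`F c (q (t)) = F c (x) ∏ i, (1 - α i * t) ^ v i c`, one of the points at which `q` meets the
hypersurfaces being split into two points, one of which is at infinity; such a curve is not constant
if the degrees are minimal, and its preimage in the cover consists of rational curves. (2) By linear
programming duality there are such data if there are no admissible exponents `e`; exponents give
pluricanonical forms `∏ c, F c ^ (M * (e c - 1))` on `X`.
-/

set_option autoImplicit false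

open FF MvPolynomial Pool.Agent.W619.PQ Pool.Agent.W619.TW Pool.Agent.Q41.RC.Def

namespace Pool.Agent.Results.MP_e06174_ag.NormalCrossingAbelianCovers

/-- The plurigenus `P_M` is not zero: there is a nonzero `M`-fold pluricanonical form which is
regular along all divisorial places. -/
def PlurigenusPos (k K : Type) [Field k] [Field K] [Algebra k K] (n M : ℕ) : Prop :=
  ∃ ω : (Fin n → Derivation k K K) → K, IsPluriForm k K n M ω ∧
    (∀ v : Place k K, IsDivisorial v n → RegularAt v n ω) ∧ ∃ D, ω D ≠ 0

/-- **Abelian covers of products of projective spaces.** Let `K` be the function field of an abelian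
cover of the product of the projective spaces of the dimensions `n l`, branched at most along the
hypersurfaces `F c = 0` of the multidegrees `d c`, and let `X` be a smooth projective model of `K`.

(1) If there are curve data then `X` is uniruled, for arbitrary hypersurfaces.

(2) Let the hypersurfaces have normal crossings, let `m j ∣ E * a j c` for all `j`, `c` (so that the
`E`-th powers in the Galois group are trivial), let `B` be at least `E` and the degrees `d c l`, and
let `M` be divisible by all positive integers up to `N! * B ^ N`. Then the following are equivalent: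
`P_M(X) = 0`; `κ(X) = -∞`; `X` is uniruled; `K_X` is not pseudo-effective; there are no admissible
exponents; there are curve data. -/
theorem result {r N R : ℕ} {n : Fin r → ℕ} {d : Fin N → Fin r → ℕ}
    {F : Fin N → MvPolynomial (Coord n) ℂ} {m : Fin R → ℕ} {a : Fin R → Fin N → ℕ} {K : Type}
    [Field K] [Algebra ℂ K] {x : Coord n → K} {z : Fin R → K} (h : IsCover d F m a x z) :
    ((∃ (D : Fin r → ℕ) (p : ℕ) (v : Fin p → Fin N → ℕ), IsCurveData n d m a ∅ D v) →
      IsUniruled ℂ K (∑ l, n l)) ∧
    (NormalCrossings F → ∀ B E M : ℕ, 0 < E → E ≤ B → (∀ j c, m j ∣ E * a j c) →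
      (∀ c l, d c l ≤ B) → 0 < M → (∀ t, 0 < t → t ≤ N.factorial * B ^ N → t ∣ M) →
      List.TFAE [¬ PlurigenusPos ℂ K (∑ l, n l) M,
        KodairaNeg ℂ K (∑ l, n l), IsUniruled ℂ K (∑ l, n l),
        ¬ IsPsef ℂ K (∑ l, n l) (fun _ => False), ¬ ∃ e, IsExponent d F m a ∅ e,
        ∃ (D : Fin r → ℕ) (p : ℕ) (v : Fin p → Fin N → ℕ), IsCurveData n d m a ∅ D v]) := by
  refine ⟨?_, ?_⟩
  · rintro ⟨D, p, v, hv⟩
    have h1 := Pool.Agent.Q41.RC.final_a1 h hv
    rw [Pool.Agent.Q41.RC.boundary_empty] at h1
    exact Pool.Agent.Q41.RC.a1_false.1 h1
  · intro hF B E M hE0 hEB hE hB hM0 hM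
    have h1 := Pool.Agent.Q41.RC.final_tfae h hF ∅
    rw [Pool.Agent.Q41.RC.boundary_empty, Pool.Agent.Q41.RC.a1_false,
      Pool.Agent.Q41.RC.logNeg_false] at h1
    tfae_have 2 ↔ 3 := h1.out 0 1
    tfae_have 3 ↔ 4 := h1.out 1 2
    tfae_have 4 ↔ 5 := h1.out 2 3
    tfae_have 5 ↔ 6 := h1.out 3 4
    tfae_have 1 → 5 := fun h2 h3 => h2 (by
      obtain ⟨ω, hω, h4, -, h5⟩ := Pool.Agent.Q41.RC.final_pluri h hF h3 hE0 hEB hE hB hM
      rw [Pool.Agent.Q41.RC.boundary_empty] at h4
      exact ⟨ω, hω, fun v hv => h4 v hv fun hb => hb, h5⟩)
    tfae_have 2 → 1 := fun h2 ⟨ω, hω, h4, D, hD⟩ => hD (h2 M hM0 ω hω h4 D)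
    tfae_finish

end Pool.Agent.Results.MP_e06174_ag.NormalCrossingAbelianCovers
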