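import Pool.Agent.Q36.PT.Fi

/-!
# The twelfth plurigenus decides uniruledness for quotients of products of curves

By Castelnuovo and Enriques a surface is uniruled if and only if its twelfth plurigenus `P₁₂`
vanishes. This file proves the same criterion, with the same exponent `12`, in every dimension, for
the quotients `X = (C 1 × ... × C n) / G` of products of arbitrary curves by arbitrary finite groups
`G` (which may permute the factors and may have fixed points, in codimension at least `N`), and the
nonvanishing of all `P_m` with `12 ∣ m` for the quotients `Z / G` of the generically finite covers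
`Z` of products of irrational curves.

The language and the definitions of `Pool.Agent.W619` (the file
`MP_e06174_ag/MixedQuotients.lean`) are used; that file has the nonvanishing of some plurigenus,
without a bound for its index. The exponent `12` does not depend on the dimension, on the curves or
on the group.

Proof: an orbifold structure `∑ (1 - 1 / e_q) q` of nonnegative degree on a curve `Q` has a section
of `12 (K_Q + ∑ (1 - 1 / e_q) q)` (round down: this is the inequality `round12` of
`Pool.Agent.Q36.PT.Ar`), so that there is a form of weight exactly `12` on each of the quotient
curves `C i / Stab i`; they can be chosen such that `G` permutes them, and their product with the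
`12`-th power of the Jacobian determinant is invariant under `G`.
-/

set_option autoImplicit false
set_option linter.overlappingInstances false

open FF IntermediateField Pool.Agent.W619.PQ Pool.Agent.W619.PL Pool.Agent.W619.TW
  Pool.Agent.W619.X Pool.Agent.W619.Y

namespace Pool.Agent.Results.MP_e06174_ag.TwelfthPlurigenus

/-- The plurigenus `P_m` is not zero: there is a nonzero `m`-fold pluricanonical form which is
regular along all divisorial places. -/
def PlurigenusPos (k : Type*) (K : Type*) [Field k] [Field K] [Algebra k K] (n m : ℕ) : Prop :=
  ∃ ω : (Fin n → Derivation k K K) → K, IsPluriForm k K n m ω ∧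
    (∀ v : Place k K, IsDivisorial v n → RegularAt v n ω) ∧ ∃ D, ω D ≠ 0

/-- **`P₁₂` decides uniruledness.** Let `F i` (`i < n`) be the function fields of curves `C i`,
`L` the function field of a projective variety `Z` of dimension `n` with a generically finite
rational map to the product of the curves, `G` a finite group of automorphisms of `L` which permutes
the curves through `σ`, and `X` a projective manifold birational to `Z / G`. Assume `MixedNonneg`:
for some `N ≥ 2` the fixed locus of each `g ≠ 1` in `G` on the product of the curves is empty or of
codimension at least `N` (for instance `G` acts freely), and for each `i`: `N ≥ 6` (`4` if `3` does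
not divide the order of `G`, `3` if the order is odd), or the quotient of `C i` by its stabilizer is
irrational or has at least `4` branch points, or it has an orbifold divisor of nonnegative degree
with coefficients at most `1 - 1 / N`, or `C i` is rational.

(1) If none of the curves is rational then `P_m(X) ≠ 0` for all `m` divisible by `12`.

(2) If `Z` is the product of the curves then the following are equivalent: `P₁₂(X) = 0`;
`κ(X) = -∞`; `X` is uniruled; `K_X` is not pseudo-effective; `ν(X) = -∞`; one of the curves is
rational. -/
theorem result {L : Type} [Field L] [Algebra ℂ L] (n : ℕ) (hn : Algebra.trdeg ℂ L = n)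
    (F : Fin n → IntermediateField ℂ L) (hF : ∀ i, IsFF ℂ (F i))
    (halg : Algebra.IsAlgebraic ↥(⨆ i, F i) L)
    (G : Subgroup (L ≃ₐ[ℂ] L)) [Finite G] (σ : G →* Equiv.Perm (Fin n))
    (hσ : ∀ (g : G) i, ∀ z ∈ F i, (g : L ≃ₐ[ℂ] L) z ∈ F (σ g i))
    (h : MixedNonneg G σ F) :
    ((∀ i, ¬ ∃ t : F i, ℂ⟮t⟯ = ⊤) → ∀ m, 12 ∣ m → PlurigenusPos ℂ (fixedField G) n m) ∧
    (⨆ i, F i = ⊤ → List.TFAE [¬ PlurigenusPos ℂ (fixedField G) n 12,
      KodairaNeg ℂ (fixedField G) n, IsUniruled ℂ (fixedField G) n,
      ¬ IsPsef ℂ (fixedField G) n (fun _ => False),
      NumNeg ℂ (fixedField G) n (fun _ => False), ∃ i, ∃ t : F i, ℂ⟮t⟯ = ⊤]) :=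
  Q36.PT.criterion12 hn F halg G σ hσ h

end Pool.Agent.Results.MP_e06174_ag.TwelfthPlurigenus
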